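import Pool.Agent.V1152.SMIF

set_option autoImplicit false

/-!
# The invariant sets of the standard map are equidistributed, for every large parameter

`S_a (x, y) = (2x - y + a sin 2πx, x)` on the torus, `m` the Lebesgue measure.  No parameter is
excluded, and nothing is assumed.  Ergodicity says that an invariant Borel set `A` has
`m(A ∩ R) = m(A) m(R)` for all sets `R`.  Here this is proved up to an error `C |a|^(-1/6)` for
all boxes `R = E × J`, `E` an arbitrary Borel set and `J` an arc, with a uniform constant, and up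
to an error `C |a|^(-1/6)` in mean for the slices.  It follows that all invariant sets of
measure between `K |a|^(-1/3)` and `1 - K |a|^(-1/3)` meet every box of a given area, together
with their complements.  The map also mixes such boxes for all times `n`, up to `C (n/|a|)^(1/2)`.
-/

open Real MeasureTheory Function

namespace Pool.Agent.Results.MP_9ee088_an.InvariantSetsEquidistribution

/-- The torus `ℝ² / ℤ²`, with its Lebesgue measure `volume`. -/
abbrev Torus := UnitAddCircle × UnitAddCircle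

/-- `T` is the standard map `S_a` of the torus. -/
def IsStandardMap (a : ℝ) (T : Torus → Torus) : Prop :=
  ∀ x y : ℝ, T ((x : UnitAddCircle), (y : UnitAddCircle)) =
    (((2 * x - y + a * sin (2 * π * x) : ℝ) : UnitAddCircle), (x : UnitAddCircle))

/-- An open arc, the image of `(c - w, c + w)` with `0 < w ≤ 1/2`. -/
def IsArc (J : Set UnitAddCircle) : Prop :=
  ∃ c w : ℝ, 0 < w ∧ w ≤ 1 / 2 ∧
    J = (fun t : ℝ => (t : UnitAddCircle)) '' Set.Ioo (c - w) (c + w)

/-- The smaller one of the measures of `A` and of its complement. -/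
noncomputable def size (A : Set Torus) : ℝ := min (volume.real A) (1 - volume.real A)

theorem arc_prop {J : Set UnitAddCircle} (hJ : IsArc J) :
    MeasurableSet J ∧ V1152.SMI.Smoothable J 2 := by
  obtain ⟨c, w, hw, hw2, rfl⟩ := hJ
  exact ⟨(V1152.SMI.arc_open (c := c) hw hw2).measurableSet, V1152.SMI.smoothable_arc hw hw2⟩

/-- **Equidistribution of the invariant sets of the standard map, for every parameter.** -/
theorem result : ∃ C : ℝ, 0 < C ∧ ∀ a : ℝ, 1 ≤ |a| → ∀ T : Torus → Torus, IsStandardMap a T →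
    -- (1) an invariant set is nearly independent of every box
    (∀ A : Set Torus, MeasurableSet A → T ⁻¹' A = A →
      ∀ E J : Set UnitAddCircle, MeasurableSet E → IsArc J →
        |volume.real (A ∩ (E ×ˢ J)) - volume.real A * volume.real (E ×ˢ J)| ≤
          C * √(size A) * |a| ^ (-(1 / 6) : ℝ) ∧
        |volume.real (A ∩ (J ×ˢ E)) - volume.real A * volume.real (J ×ˢ E)| ≤
          C * √(size A) * |a| ^ (-(1 / 6) : ℝ)) ∧
    -- (2) in mean, the vertical and the horizontal slices have nearly the measure of the set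
    (∀ A : Set Torus, MeasurableSet A → T ⁻¹' A = A →
      ∫ x : UnitAddCircle, |volume.real {y | (x, y) ∈ A} - volume.real A| ≤
        C * √(size A) * |a| ^ (-(1 / 6) : ℝ) ∧
      ∫ y : UnitAddCircle, |volume.real {x | (x, y) ∈ A} - volume.real A| ≤
        C * √(size A) * |a| ^ (-(1 / 6) : ℝ)) ∧
    -- (3) an invariant set which is null in a box is small
    (∀ A : Set Torus, MeasurableSet A → T ⁻¹' A = A →
      ∀ E J : Set UnitAddCircle, MeasurableSet E → IsArc J → volume (A ∩ (E ×ˢ J)) = 0 →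
        volume.real A * volume.real (E ×ˢ J) ^ 2 ≤ C ^ 2 * |a| ^ (-(1 / 3) : ℝ)) ∧
    -- (4) mixing of boxes for finitely many times
    (∀ n : ℕ, 3 ≤ n → ∀ E J E' J' : Set UnitAddCircle, MeasurableSet E → IsArc J →
      MeasurableSet E' → IsArc J' →
        |volume.real (T^[n] ⁻¹' (E ×ˢ J) ∩ (E' ×ˢ J')) -
          volume.real (E ×ˢ J) * volume.real (E' ×ˢ J')| ≤ C * √(n / |a|)) := by
  have hCC := V1152.SMI.CC_pos
  have hs3 : 0 < √(V1152.SMI.CC * (1 + 2)) := by positivity
  have hs1 : 0 < √V1152.SMI.CC := by positivity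
  have hvol : ∀ E J : Set UnitAddCircle, volume.real (E ×ˢ J) = volume.real E * volume.real J := by
    intro E J
    have : (volume : Measure Torus) (E ×ˢ J) = volume E * volume J := by
      rw [TH705.SM.vol_T2, Measure.prod_prod]
    rw [measureReal_def, this, ENNReal.toReal_mul]
    rfl
  refine ⟨√(V1152.SMI.CC * (1 + 2)) + 2 * √V1152.SMI.CC + V1152.SMI.CC * (1 + 2), by positivity,
    ?_⟩
  intro a ha T hT
  have hTS : T = TH705.SM.S a := TH705.SM.eq_S a T hT
  rw [hTS]
  have ha0 : 0 < |a| := by linarith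
  have hp : 0 < |a| ^ (-(1 / 6) : ℝ) := Real.rpow_pos_of_pos ha0 _
  set C := √(V1152.SMI.CC * (1 + 2)) + 2 * √V1152.SMI.CC + V1152.SMI.CC * (1 + 2) with hC
  have key : ∀ A : Set Torus, MeasurableSet A → TH705.SM.S a ⁻¹' A = A →
      ∀ E J : Set UnitAddCircle, MeasurableSet E → IsArc J →
        |volume.real (A ∩ (E ×ˢ J)) - volume.real A * volume.real (E ×ˢ J)| ≤
          C * √(size A) * |a| ^ (-(1 / 6) : ℝ) ∧
        |volume.real (A ∩ (J ×ˢ E)) - volume.real A * volume.real (J ×ˢ E)| ≤
          C * √(size A) * |a| ^ (-(1 / 6) : ℝ) := by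
    intro A hA hinv E J hE hJ
    obtain ⟨hJm, hJs⟩ := arc_prop hJ
    have h1 := V1152.SMI.box_min ha hA hinv hE hJm (by norm_num) hJs
    have h2 := V1152.SMI.box_swap ha hA hinv hE hJm (by norm_num) hJs
    have h3 : √(V1152.SMI.CC * (1 + 2)) * √(min (volume.real A) (1 - volume.real A)) *
        |a| ^ (-(1 / 6) : ℝ) ≤ C * √(size A) * |a| ^ (-(1 / 6) : ℝ) := by
      apply mul_le_mul_of_nonneg_right _ hp.le
      apply mul_le_mul_of_nonneg_right _ (Real.sqrt_nonneg _)
      rw [hC]
      linarith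
    rw [hvol, hvol]
    exact ⟨h1.trans h3, h2.trans h3⟩
  refine ⟨key, ?_, ?_, ?_⟩
  · intro A hA hinv
    have h1 := V1152.SMI.slices ha hA hinv
    have h2 := V1152.SMI.slices_swap ha hA hinv
    have h3 : 2 * (√V1152.SMI.CC * √(min (volume.real A) (1 - volume.real A)) *
        |a| ^ (-(1 / 6) : ℝ)) ≤ C * √(size A) * |a| ^ (-(1 / 6) : ℝ) := by
      rw [← mul_assoc, ← mul_assoc]
      apply mul_le_mul_of_nonneg_right _ hp.le
      apply mul_le_mul_of_nonneg_right _ (Real.sqrt_nonneg _)
      rw [hC]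
      have : 0 ≤ V1152.SMI.CC * (1 + 2) := by positivity
      linarith
    exact ⟨h1.trans h3, h2.trans h3⟩
  · intro A hA hinv E J hE hJ h0
    have h1 := (key A hA hinv E J hE hJ).1
    have h2 : volume.real (A ∩ (E ×ˢ J)) = 0 := by
      rw [measureReal_def, h0]
      rfl
    set v := volume.real A with hv
    set ρ := volume.real (E ×ˢ J) with hρ
    have hv0 : 0 ≤ v := measureReal_nonneg
    have hρ0 : 0 ≤ ρ := measureReal_nonneg
    have hC0 : 0 ≤ C := by rw [hC]; positivity
    rw [h2, zero_sub, abs_neg, abs_of_nonneg (mul_nonneg hv0 hρ0)] at h1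
    have h3 : √(size A) ≤ √v := Real.sqrt_le_sqrt (min_le_left _ _)
    have h4 : v * ρ ≤ C * √v * |a| ^ (-(1 / 6) : ℝ) := by
      refine h1.trans ?_
      apply mul_le_mul_of_nonneg_right _ hp.le
      exact mul_le_mul_of_nonneg_left h3 hC0
    have h5 : (v * ρ) ^ 2 ≤ v * (C ^ 2 * |a| ^ (-(1 / 3) : ℝ)) := by
      have h6 : (v * ρ) ^ 2 ≤ (C * √v * |a| ^ (-(1 / 6) : ℝ)) ^ 2 :=
        pow_le_pow_left₀ (mul_nonneg hv0 hρ0) h4 2
      refine h6.trans (le_of_eq ?_)
      have h7 : (|a| ^ (-(1 / 6) : ℝ)) ^ 2 = |a| ^ (-(1 / 3) : ℝ) := by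
        rw [← Real.rpow_natCast, ← Real.rpow_mul ha0.le]
        norm_num
      rw [mul_pow, mul_pow, Real.sq_sqrt hv0, h7]
      ring
    rcases hv0.lt_or_eq with hpos | hz
    · have h8 : v * (v * ρ ^ 2) ≤ v * (C ^ 2 * |a| ^ (-(1 / 3) : ℝ)) := by
        refine le_trans (le_of_eq ?_) h5
        ring
      exact le_of_mul_le_mul_left h8 hpos
    · rw [← hz, zero_mul]
      positivity
  · intro n hn E J E' J' hE hJ hE' hJ'
    obtain ⟨hJm, hJs⟩ := arc_prop hJ
    obtain ⟨hJm', hJs'⟩ := arc_prop hJ'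
    rw [hvol, hvol]
    refine (V1152.SMI.mix_box ha hn hE hJm hE' hJm' hJs hJs').trans ?_
    apply mul_le_mul_of_nonneg_right _ (Real.sqrt_nonneg _)
    rw [hC]
    linarith

end Pool.Agent.Results.MP_9ee088_an.InvariantSetsEquidistribution
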