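import Pool.Agent.V1152.SMIH

set_option autoImplicit false

/-!
# Almost all orbits of the standard map: orbit averages, and an upper bound for the exponents

`S_a (x, y) = (2x - y + a sin 2πx, x)` on the torus, `m` the Lebesgue measure, `|a| ≥ 16`.  No
parameter is excluded, and nothing is assumed.  For the time going to infinity:

* the orbit averages of every bounded Borel function `ψ` of the first coordinate are eventually
  within `ε` of its integral, outside a set of measure `C (sup |ψ|)² ε^(-2) |a|^(-1/3)`;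
* the Lyapunov exponent is at most `log (π |a|) + ε`, outside a set of measure
  `C (1 + log |a|)² ε^(-2) |a|^(-1/3)`.
-/

open Real MeasureTheory Function Filter

namespace Pool.Agent.Results.MP_9ee088_an.LyapunovUpperBound

/-- The torus `ℝ² / ℤ²`, with its Lebesgue measure `volume`. -/
abbrev Torus := UnitAddCircle × UnitAddCircle

/-- `T` is the standard map `S_a` of the torus. -/
def IsStandardMap (a : ℝ) (T : Torus → Torus) : Prop :=
  ∀ x y : ℝ, T ((x : UnitAddCircle), (y : UnitAddCircle)) =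
    (((2 * x - y + a * sin (2 * π * x) : ℝ) : UnitAddCircle), (x : UnitAddCircle))

/-- The lift `(x, y) ↦ (2 x - y + a sin 2 π x, x)` of `S_a` to the plane. -/
noncomputable def planeMap (a : ℝ) (p : ℝ × ℝ) : ℝ × ℝ :=
  (2 * p.1 - p.2 + a * sin (2 * π * p.1), p.1)

/-- The norm of the derivative `D S_a ^ n` at `(x, y)` (for the maximum norm of `ℝ × ℝ`). -/
noncomputable def derivNorm (a : ℝ) (n : ℕ) (x y : ℝ) : ℝ :=
  ‖fderiv ℝ (planeMap a)^[n] (x, y)‖

/-- **Orbit averages of Borel functions of `x`, and the upper bound `log (π |a|) + ε` for the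
Lyapunov exponents, for every parameter.** -/
theorem result : ∃ C : ℝ, 0 < C ∧ ∀ a : ℝ, 16 ≤ |a| →
    -- (1) the orbit averages of a bounded Borel function of the first coordinate
    (∀ T : Torus → Torus, IsStandardMap a T → ∀ ψ : UnitAddCircle → ℝ, Measurable ψ →
      ∀ M : ℝ, (∀ x, |ψ x| ≤ M) → ∀ ε : ℝ, 0 < ε →
        ∃ Z : Set Torus, MeasurableSet Z ∧
          volume.real Z ≤ C * M ^ 2 / ε ^ 2 * |a| ^ (-(1 / 3) : ℝ) ∧
          ∀ p, p ∉ Z → ∀ᶠ n : ℕ in atTop,
            |(1 / (n : ℝ)) * ∑ k ∈ Finset.range n, ψ (T^[k] p).1 - ∫ x, ψ x| ≤ ε) ∧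
    -- (2) the Lyapunov exponents
    (∀ ε : ℝ, 0 < ε → ∃ Z : Set Torus, MeasurableSet Z ∧
      volume.real Z ≤ C * (1 + log |a|) ^ 2 / ε ^ 2 * |a| ^ (-(1 / 3) : ℝ) ∧
      ∀ x y : ℝ, ((x : UnitAddCircle), (y : UnitAddCircle)) ∉ Z →
        ∀ᶠ n : ℕ in atTop, log (derivNorm a n x y) ≤ n * (log (π * |a|) + ε)) := by
  have hCC := V1152.SMI.CC_pos
  refine ⟨32 * V1152.SMI.CC * 256 + 36, by positivity, ?_⟩
  intro a ha
  have ha1 : 1 ≤ |a| := by linarith
  have ha0 : 0 < |a| := by linarith
  have hp3 : 0 < |a| ^ (-(1 / 3) : ℝ) := Real.rpow_pos_of_pos ha0 _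
  have hlog0 : 0 ≤ log |a| := Real.log_nonneg ha1
  refine ⟨?_, ?_⟩
  · intro T hT ψ hψ M hM ε hε
    have hTS : T = TH705.SM.S a := TH705.SM.eq_S a T hT
    rw [hTS]
    obtain ⟨Z, hZ, hZ1, hZ2⟩ := V1152.SMI.avg_x ha1 hψ hM hε
    refine ⟨Z, hZ, hZ1.trans ?_, hZ2⟩
    apply mul_le_mul_of_nonneg_right _ hp3.le
    apply div_le_div_of_nonneg_right _ (by positivity)
    apply mul_le_mul_of_nonneg_right _ (sq_nonneg M)
    linarith
  · intro ε hε
    rcases le_or_gt ε (6 / |a|) with hsmall | hbig
    · refine ⟨Set.univ, MeasurableSet.univ, ?_, fun x y h => absurd (Set.mem_univ _) h⟩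
      have h1 : volume.real (Set.univ : Set Torus) ≤ 1 := measureReal_le_one
      refine h1.trans ?_
      have h2 : ε ^ 2 ≤ 36 / |a| ^ 2 := by
        calc ε ^ 2 ≤ (6 / |a|) ^ 2 := pow_le_pow_left₀ hε.le hsmall 2
          _ = 36 / |a| ^ 2 := by rw [div_pow]; norm_num
      have h3 : (1:ℝ) ≤ |a| ^ 2 * |a| ^ (-(1 / 3) : ℝ) := by
        rw [← Real.rpow_natCast, ← Real.rpow_add ha0]
        apply Real.one_le_rpow ha1
        norm_num
      have h4 : (1:ℝ) ≤ (1 + log |a|) ^ 2 := by nlinarith
      have h5 : |a| ^ 2 ≤ 36 / ε ^ 2 := by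
        rw [le_div_iff₀ (by positivity)]
        rw [le_div_iff₀ (by positivity)] at h2
        linarith
      calc (1:ℝ) ≤ |a| ^ 2 * |a| ^ (-(1 / 3) : ℝ) := h3
        _ ≤ 36 / ε ^ 2 * |a| ^ (-(1 / 3) : ℝ) := mul_le_mul_of_nonneg_right h5 hp3.le
        _ ≤ _ := by
            apply mul_le_mul_of_nonneg_right _ hp3.le
            apply div_le_div_of_nonneg_right _ (by positivity)
            nlinarith
    · set ψ : UnitAddCircle → ℝ := (V1152.SMI.ff_period a).lift with hψd
      have hψc : Continuous ψ := TH705.SM.lift_cont _ (V1152.SMI.ff_cont a)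
      have hψv : ∀ x : ℝ, ψ (x : UnitAddCircle) = V1152.SMI.ff a x := fun x =>
        Function.Periodic.lift_coe _ x
      have hM : ∀ x : UnitAddCircle, |ψ x| ≤ 4 * (1 + log |a|) := by
        intro x
        induction x using QuotientAddGroup.induction_on with
        | H x => rw [hψv]; exact V1152.SMI.ff_bound ha1 x
      have hint : ∫ x, ψ x = ∫ x in (0:ℝ)..1, V1152.SMI.ff a x := by
        have h := UnitAddCircle.intervalIntegral_preimage 0 ψ
        rw [zero_add] at h
        rw [← h]
        rfl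
      obtain ⟨hm1, hm2⟩ := V1152.SMI.ff_mean ha
      obtain ⟨Z, hZ, hZ1, hZ2⟩ := V1152.SMI.avg_x ha1 hψc.measurable hM
        (ε := ε / 4) (by positivity)
      refine ⟨Z, hZ, hZ1.trans ?_, ?_⟩
      · apply mul_le_mul_of_nonneg_right _ hp3.le
        have e : 32 * V1152.SMI.CC * (4 * (1 + log |a|)) ^ 2 / (ε / 4) ^ 2 =
            32 * V1152.SMI.CC * 256 * (1 + log |a|) ^ 2 / ε ^ 2 := by
          field_simp
          ring
        rw [e]
        apply div_le_div_of_nonneg_right _ (by positivity)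
        apply mul_le_mul_of_nonneg_right _ (sq_nonneg _)
        linarith
      · intro x y hxy
        have h1 := hZ2 _ hxy
        have h2 : ∀ᶠ n : ℕ in atTop, log 2 / 2 ≤ n * (ε / 4) := by
          have : Tendsto (fun n : ℕ => (n : ℝ) * (ε / 4)) atTop atTop :=
            tendsto_natCast_atTop_atTop.atTop_mul_const (by positivity)
          exact this.eventually_ge_atTop _
        filter_upwards [h1, h2, eventually_ge_atTop 1] with n b1 b2 b3
        have hn0 : (0:ℝ) < n := by exact_mod_cast b3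
        have b4 := V1152.SMI.norm_bound a (x, y) n
        have b5 : log (derivNorm a n x y) ≤ log 2 / 2 +
            ∑ k ∈ Finset.range n, V1152.SMI.ff a ((V1152.SMI.pm a)^[k] (x, y)).1 := b4
        have b6 : ∀ k, ψ ((TH705.SM.S a)^[k] ((x : UnitAddCircle), (y : UnitAddCircle))).1 =
            V1152.SMI.ff a ((V1152.SMI.pm a)^[k] (x, y)).1 := by
          intro k
          rw [TH705.SM.iter_coe, hψv]
          have : (V1152.SMI.pm a)^[k] (x, y) = (TH705.SM.X a y (k + 1) x, TH705.SM.X a y k x) :=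
            TH705.SM.iter_plane a y x k
          rw [this]
        simp_rw [b6] at b1
        set s := ∑ k ∈ Finset.range n, V1152.SMI.ff a ((V1152.SMI.pm a)^[k] (x, y)).1 with hs
        have b7 := (abs_le.1 b1).2
        have b8 : 1 / (n : ℝ) * s ≤ log (π * |a|) + 3 / |a| + ε / 4 := by
          rw [hint] at b7
          linarith
        have b9 : s ≤ n * (log (π * |a|) + 3 / |a| + ε / 4) := by
          have : s = n * (1 / (n : ℝ) * s) := by field_simp
          rw [this]
          exact mul_le_mul_of_nonneg_left b8 hn0.le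
        have b10 : 3 / |a| ≤ ε / 2 := by
          have : 3 / |a| = (6 / |a|) / 2 := by ring
          rw [this]
          linarith
        calc log (derivNorm a n x y) ≤ log 2 / 2 + s := b5
          _ ≤ n * (ε / 4) + n * (log (π * |a|) + 3 / |a| + ε / 4) := add_le_add b2 b9
          _ = n * (log (π * |a|) + (3 / |a| + ε / 2)) := by ring
          _ ≤ n * (log (π * |a|) + ε) := by
              apply mul_le_mul_of_nonneg_left _ hn0.le
              linarith

end Pool.Agent.Results.MP_9ee088_an.LyapunovUpperBound
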