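import Pool.Agent.TH705.SM.CltI

set_option autoImplicit false

/-!
# The central limit theorem for observables, and the diffusion of the momentum, for the standard map

`F_a (x, y) = (2x - y + a sin 2πx, x)` is the lift of `S_a` to the plane, and the momentum is
`p = x - y`, so that `p' = p + a sin 2πx`.  Fix the second coordinate `y` and choose `x` at random
in `(0, 1]`.  For every parameter `a`, the sums `∑_{k < n} f (x_k)` of a smooth function of the first
coordinate are asymptotically Gaussian, with the variance of independent variables, for all times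
`n ≤ |a|^(1 - ε)`, with a rate.  In particular the momentum performs a diffusion with the coefficient
`a² / 2` (the quasilinear law of Chirikov).
-/

open Real MeasureTheory Filter Topology ProbabilityTheory

namespace Pool.Agent.Results.MP_9ee088_an.ObservablesCLT

/-- The lift `(x, y) ↦ (2 x - y + a sin 2 π x, x)` of `S_a` to the plane. -/
noncomputable def planeMap (a : ℝ) (p : ℝ × ℝ) : ℝ × ℝ :=
  (2 * p.1 - p.2 + a * sin (2 * π * p.1), p.1)

/-- The Birkhoff sum `∑_{k < n} f (x_k)`, where `(x_k, y_k)` is the orbit of `(x, y)`. -/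
noncomputable def birkhoff (a : ℝ) (f : ℝ → ℝ) (n : ℕ) (x y : ℝ) : ℝ :=
  ∑ k ∈ Finset.range n, f ((planeMap a)^[k] (x, y)).1

/-- The momentum `x - y`. -/
def momentum (p : ℝ × ℝ) : ℝ := p.1 - p.2

/-- The error `n^(-1/2) + (n/|a|)^(1/2) (1 + log |a|)`. -/
noncomputable def rate (a : ℝ) (n : ℕ) : ℝ := 1 / √n + √(n / |a|) * (1 + log |a|)

theorem birkhoff_eq (a : ℝ) (f : ℝ → ℝ) (n : ℕ) (x y : ℝ) :
    birkhoff a f n x y = ∑ k ∈ Finset.range n, f (TH705.SM.X a y (k + 1) x) := by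
  unfold birkhoff
  refine Finset.sum_congr rfl fun k _ => ?_
  have h := TH705.SM.iter_plane a y x k
  show f ((fun p : ℝ × ℝ => (2 * p.1 - p.2 + a * sin (2 * π * p.1), p.1))^[k] (x, y)).1 = _
  rw [h]

theorem momentum_eq (a : ℝ) (n : ℕ) (x y : ℝ) :
    momentum ((planeMap a)^[n] (x, y)) - momentum (x, y) =
      a * birkhoff a (fun t => sin (2 * π * t)) n x y := by
  rw [birkhoff_eq]
  have h := TH705.SM.iter_plane a y x n
  have h2 : (planeMap a)^[n] (x, y) = (TH705.SM.X a y (n + 1) x, TH705.SM.X a y n x) := h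
  rw [h2]
  exact TH705.SM.momentum a y x n

/-- **The central limit theorem for observables of the standard map, and the diffusion of the
momentum, for every large parameter.** -/
theorem result :
    -- (1) the characteristic function, on every horizontal line, for every parameter, with a rate
    (∀ M : ℝ, 0 ≤ M → ∃ C : ℝ, 0 < C ∧ ∀ f : ℝ → ℝ, ContDiff ℝ 1 f → Function.Periodic f 1 →
      (∀ x, |f x| ≤ M) → (∀ x, |deriv f x| ≤ M) → ∫ x in (0:ℝ)..1, f x = 0 →
      ∀ a : ℝ, 1 ≤ |a| → ∀ n : ℕ, 1 ≤ n → ∀ y τ : ℝ,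
      ‖(∫ x in (0:ℝ)..1, Complex.exp (((τ * (birkhoff a f n x y / √n) : ℝ) : ℂ) * Complex.I)) -
        ((exp (-(τ ^ 2 * (∫ x in (0:ℝ)..1, f x ^ 2) / 2)) : ℝ) : ℂ)‖ ≤
        C * (1 + |τ|) ^ 4 * rate a n) ∧
    -- (2) convergence in distribution to the normal law, on any horizontal lines
    (∀ f : ℝ → ℝ, ContDiff ℝ 1 f → Function.Periodic f 1 → ∫ x in (0:ℝ)..1, f x = 0 →
      0 < ∫ x in (0:ℝ)..1, f x ^ 2 →
      ∀ (a : ℕ → ℝ) (n : ℕ → ℕ), (∀ j, 1 ≤ |a j|) → (∀ j, 1 ≤ n j) →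
      Tendsto (fun j => rate (a j) (n j)) atTop (𝓝 0) → ∀ (y : ℕ → ℝ) (z : ℝ),
      Tendsto (fun j => volume {x : ℝ | x ∈ Set.Ioc (0:ℝ) 1 ∧
        birkhoff (a j) f (n j) x (y j) / √(n j) ≤ z}) atTop
        (𝓝 (gaussianReal 0 (∫ x in (0:ℝ)..1, f x ^ 2).toNNReal (Set.Iic z)))) ∧
    -- (3) the diffusion of the momentum, with the coefficient `a² / 2`
    (∀ (a : ℕ → ℝ) (n : ℕ → ℕ), (∀ j, 1 ≤ |a j|) → (∀ j, 1 ≤ n j) →
      Tendsto (fun j => rate (a j) (n j)) atTop (𝓝 0) → ∀ (y : ℕ → ℝ) (z : ℝ),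
      Tendsto (fun j => volume {x : ℝ | x ∈ Set.Ioc (0:ℝ) 1 ∧
        (momentum ((planeMap (a j))^[n j] (x, y j)) - momentum (x, y j)) / (a j * √(n j)) ≤ z})
        atTop (𝓝 (gaussianReal 0 (1 / 2 : ℝ).toNNReal (Set.Iic z)))) := by
  have key : ∀ f : ℝ → ℝ, ContDiff ℝ 1 f → Function.Periodic f 1 → ∫ x in (0:ℝ)..1, f x = 0 →
      0 < ∫ x in (0:ℝ)..1, f x ^ 2 →
      ∀ (a : ℕ → ℝ) (n : ℕ → ℕ), (∀ j, 1 ≤ |a j|) → (∀ j, 1 ≤ n j) →
      Tendsto (fun j => rate (a j) (n j)) atTop (𝓝 0) → ∀ (y : ℕ → ℝ) (z : ℝ),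
      Tendsto (fun j => volume {x : ℝ | x ∈ Set.Ioc (0:ℝ) 1 ∧
        birkhoff (a j) f (n j) x (y j) / √(n j) ≤ z}) atTop
        (𝓝 (gaussianReal 0 (∫ x in (0:ℝ)..1, f x ^ 2).toNNReal (Set.Iic z))) := by
    intro f hf p f0 fv a n ha hn hr y z
    simp_rw [birkhoff_eq]
    exact TH705.SM.clt_seq (rate := rate) (fun M hM => TH705.SM.clt2 hM)
      (fun x => (hf.differentiable (by norm_num) x).hasDerivAt) (hf.continuous_deriv (by norm_num))
      p f0 fv rfl ha hn hr y z
  refine ⟨?_, key, ?_⟩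
  · intro M hM
    obtain ⟨C, hC, H⟩ := TH705.SM.clt2 hM
    refine ⟨C, hC, ?_⟩
    intro f hf p b b' f0 a ha n hn y τ
    have h := H f (deriv f) (fun x => (hf.differentiable (by norm_num) x).hasDerivAt)
      (hf.continuous_deriv (by norm_num)) p b b' f0 _ rfl a ha n hn y τ
    have e : ∀ x, Complex.exp (((τ * (birkhoff a f n x y / √n) : ℝ) : ℂ) * Complex.I) =
        TH705.SM.E (τ / √n * ∑ k ∈ Finset.range n, f (TH705.SM.X a y (k + 1) x)) := by
      intro x
      unfold TH705.SM.E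
      rw [birkhoff_eq]
      congr 3
      ring
    simp_rw [e]
    exact h
  · intro a n ha hn hr y z
    have hsd : ContDiff ℝ 1 (fun t : ℝ => sin (2 * π * t)) := by fun_prop
    have hper : Function.Periodic (fun t : ℝ => sin (2 * π * t)) 1 := by
      intro x
      show sin (2 * π * (x + 1)) = sin (2 * π * x)
      rw [show 2 * π * (x + 1) = 2 * π * x + 2 * π by ring, sin_add_two_pi]
    have h2 : ∫ x in (0:ℝ)..1, (fun t : ℝ => sin (2 * π * t)) x ^ 2 = 1 / 2 :=
      TH705.SM.sin_sq_int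
    have h := key (fun t : ℝ => sin (2 * π * t)) hsd hper TH705.SM.sin_int
      (by rw [h2]; norm_num) a n ha hn hr y z
    rw [h2] at h
    have e : ∀ j x, (momentum ((planeMap (a j))^[n j] (x, y j)) - momentum (x, y j)) /
        (a j * √(n j)) = birkhoff (a j) (fun t => sin (2 * π * t)) (n j) x (y j) / √(n j) := by
      intro j x
      rw [momentum_eq]
      have ha0 : a j ≠ 0 := by
        intro h0
        have := ha j
        rw [h0, abs_zero] at this
        linarith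
      rw [mul_div_mul_left _ _ ha0]
    simp_rw [e]
    exact h

end Pool.Agent.Results.MP_9ee088_an.ObservablesCLT
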