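import Pool.Agent.V1152.SMIK

set_option autoImplicit false

/-!
# Sets invariant under a power of the standard map; all periodic islands are small

`S_a (x, y) = (2x - y + a sin 2πx, x)` on the torus, `m` the Lebesgue measure, `|a| ≥ 1`.  No
parameter is excluded, and nothing is assumed.  The orbits of an elliptic island of period `q`
obstruct ergodicity: a set `A` with `S_a^{-q} A = A`, disjoint from its first `q - 1` preimages.

* A set `A` with `S_a^{-q} A = A` satisfies `m(A ∩ R) = m(A) m(R)` up to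
  `C min(m(A), 1 - m(A))^(1/2) (q / |a|)^(1/6)`, for every box `R`.
* If such a set is disjoint from its first `q - 1` preimages and is contained in a box of area at
  most `1/2`, its measure is at most `C |a|^(-1/4)`, for every period `q`.
-/

open Real MeasureTheory Function

namespace Pool.Agent.Results.MP_9ee088_an.PeriodicIslands

/-- The torus `ℝ² / ℤ²`, with its Lebesgue measure `volume`. -/
abbrev Torus := UnitAddCircle × UnitAddCircle

/-- `T` is the standard map `S_a` of the torus. -/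
def IsStandardMap (a : ℝ) (T : Torus → Torus) : Prop :=
  ∀ x y : ℝ, T ((x : UnitAddCircle), (y : UnitAddCircle)) =
    (((2 * x - y + a * sin (2 * π * x) : ℝ) : UnitAddCircle), (x : UnitAddCircle))

/-- An open arc, the image of `(c - w, c + w)` with `0 < w ≤ 1/2`. -/
def IsArc (J : Set UnitAddCircle) : Prop :=
  ∃ c w : ℝ, 0 < w ∧ w ≤ 1 / 2 ∧
    J = (fun t : ℝ => (t : UnitAddCircle)) '' Set.Ioo (c - w) (c + w)

/-- `R` is a box: a product of a Borel set and an arc, in one of the two orders. -/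
def IsBox (R : Set Torus) : Prop :=
  ∃ E J : Set UnitAddCircle, MeasurableSet E ∧ IsArc J ∧ (R = E ×ˢ J ∨ R = J ×ˢ E)

/-- The smaller one of the measures of `A` and of its complement. -/
noncomputable def size (A : Set Torus) : ℝ := min (volume.real A) (1 - volume.real A)

/-- `A` is a periodic component of period `q` (for example an island of period `q`): a Borel set
with `T^{-q} A = A` whose preimages `A, T⁻¹ A, …, T^{-(q-1)} A` are pairwise disjoint. -/
structure IsPeriodic (T : Torus → Torus) (q : ℕ) (A : Set Torus) : Prop where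
  measurable : MeasurableSet A
  invariant : T^[q] ⁻¹' A = A
  disjoint : ∀ i < q, ∀ j < q, i ≠ j → Disjoint (T^[i] ⁻¹' A) (T^[j] ⁻¹' A)

theorem arc_prop {J : Set UnitAddCircle} (hJ : IsArc J) :
    MeasurableSet J ∧ V1152.SMI.Smoothable J 2 := by
  obtain ⟨c, w, hw, hw2, rfl⟩ := hJ
  exact ⟨(V1152.SMI.arc_open (c := c) hw hw2).measurableSet, V1152.SMI.smoothable_arc hw hw2⟩

/-- the preimages are disjoint -/
theorem card_le {a : ℝ} {q : ℕ} {A : Set Torus} (h : IsPeriodic (TH705.SM.S a) q A) :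
    (q : ℝ) * volume.real A ≤ 1 := by
  have hit : ∀ k, MeasurePreserving ((TH705.SM.S a)^[k]) (volume : Measure Torus) volume :=
    fun k => TH705.SM.iter_mp a k
  have h1 : (volume : Measure Torus).real (⋃ i ∈ Finset.range q, (TH705.SM.S a)^[i] ⁻¹' A) =
      ∑ i ∈ Finset.range q, (volume : Measure Torus).real ((TH705.SM.S a)^[i] ⁻¹' A) := by
    apply measureReal_biUnion_finset
    · intro i hi j hj hij
      exact h.disjoint i (by simpa using hi) j (by simpa using hj) hij
    · intro i _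
      exact (hit i).measurable h.measurable
    · intro i _
      exact measure_ne_top _ _
  have h2 : ∀ i, (volume : Measure Torus).real ((TH705.SM.S a)^[i] ⁻¹' A) = volume.real A := by
    intro i
    exact congrArg ENNReal.toReal ((hit i).measure_preimage h.measurable.nullMeasurableSet)
  simp_rw [h2] at h1
  rw [Finset.sum_const, Finset.card_range, nsmul_eq_mul] at h1
  rw [← h1]
  exact measureReal_le_one

/-- **Sets invariant under a power of the standard map, and the size of the periodic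
components, for every parameter.** -/
theorem result : ∃ C : ℝ, 0 < C ∧ ∀ a : ℝ, 1 ≤ |a| → ∀ T : Torus → Torus, IsStandardMap a T →
    -- (1) a set invariant under `T^q` is nearly independent of every box
    (∀ q : ℕ, 1 ≤ q → ∀ A : Set Torus, MeasurableSet A → T^[q] ⁻¹' A = A →
      ∀ R : Set Torus, IsBox R →
        |volume.real (A ∩ R) - volume.real A * volume.real R| ≤
          C * √(size A) * (q / |a|) ^ (1 / 6 : ℝ)) ∧
    -- (2) periodic components contained in a box
    (∀ q : ℕ, 1 ≤ q → ∀ A : Set Torus, IsPeriodic T q A → ∀ R : Set Torus, IsBox R → A ⊆ R →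
      volume.real A ^ 4 * (1 - volume.real R) ^ 6 ≤ C ^ 6 / |a|) ∧
    -- (3) periodic components contained in a box of area at most `1/2`
    (∀ q : ℕ, 1 ≤ q → ∀ A : Set Torus, IsPeriodic T q A → ∀ R : Set Torus, IsBox R → A ⊆ R →
      volume.real R ≤ 1 / 2 → volume.real A ≤ C * |a| ^ (-(1 / 4) : ℝ)) := by
  have hCC := V1152.SMI.CC_pos
  have hvol : ∀ E J : Set UnitAddCircle, volume.real (E ×ˢ J) = volume.real E * volume.real J := by
    intro E J
    have : (volume : Measure Torus) (E ×ˢ J) = volume E * volume J := by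
      rw [TH705.SM.vol_T2, Measure.prod_prod]
    rw [measureReal_def, this, ENNReal.toReal_mul]
    rfl
  obtain ⟨C0, hC0⟩ : ∃ C0 : ℝ, C0 = √(20 + 5 * V1152.SMI.CC) := ⟨_, rfl⟩
  have hC00 : 0 ≤ C0 := by rw [hC0]; exact Real.sqrt_nonneg _
  have hCle : C0 ≤ 3 * (1 + C0) ^ 2 := by nlinarith
  refine ⟨3 * (1 + C0) ^ 2, by positivity, ?_⟩
  intro a ha T hT
  have hTS : T = TH705.SM.S a := TH705.SM.eq_S a T hT
  rw [hTS]
  have ha0 : 0 < |a| := by linarith
  have key : ∀ q : ℕ, 1 ≤ q → ∀ A : Set Torus, MeasurableSet A → (TH705.SM.S a)^[q] ⁻¹' A = A →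
      ∀ R : Set Torus, IsBox R → |volume.real (A ∩ R) - volume.real A * volume.real R| ≤
        C0 * √(size A) * (q / |a|) ^ (1 / 6 : ℝ) := by
    intro q hq A hA hinv R hR
    obtain ⟨E, J, hE, hJ, hR⟩ := hR
    obtain ⟨hJm, hJs⟩ := arc_prop hJ
    rw [hC0]
    rcases hR with rfl | rfl
    · rw [hvol]
      exact V1152.SMI.box_q_min ha hq hA hinv hE hJm hJs
    · rw [hvol]
      exact V1152.SMI.box_q_swap ha hq hA hinv hE hJm hJs
  have isl : ∀ q : ℕ, 1 ≤ q → ∀ A : Set Torus, IsPeriodic (TH705.SM.S a) q A →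
      ∀ R : Set Torus, IsBox R → A ⊆ R →
        volume.real A ^ 4 * (1 - volume.real R) ^ 6 ≤ C0 ^ 6 / |a| := by
    intro q hq A hA R hR hAR
    have h1 := key q hq A hA.measurable hA.invariant R hR
    rw [Set.inter_eq_left.2 hAR] at h1
    set v := volume.real A with hv
    set κ := 1 - volume.real R with hκ
    have hv0 : 0 ≤ v := measureReal_nonneg
    have hκ0 : 0 ≤ κ := by
      have : volume.real R ≤ 1 := measureReal_le_one
      rw [hκ]
      linarith
    have hq0 : (0:ℝ) < q := by exact_mod_cast hq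
    have hz0 : 0 < (q : ℝ) / |a| := by positivity
    have e1 : v - v * volume.real R = v * κ := by rw [hκ]; ring
    rw [e1, abs_of_nonneg (mul_nonneg hv0 hκ0)] at h1
    have hs : √(size A) ≤ √v := Real.sqrt_le_sqrt (min_le_left _ _)
    have hw : 0 < ((q : ℝ) / |a|) ^ (1 / 6 : ℝ) := Real.rpow_pos_of_pos hz0 _
    have h2 : v * κ ≤ C0 * √v * ((q : ℝ) / |a|) ^ (1 / 6 : ℝ) := by
      refine h1.trans ?_
      apply mul_le_mul_of_nonneg_right _ hw.le
      exact mul_le_mul_of_nonneg_left hs hC00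
    have h3 : (v * κ) ^ 6 ≤ (C0 * √v * ((q : ℝ) / |a|) ^ (1 / 6 : ℝ)) ^ 6 :=
      pow_le_pow_left₀ (mul_nonneg hv0 hκ0) h2 6
    have h4 : (((q : ℝ) / |a|) ^ (1 / 6 : ℝ)) ^ 6 = (q : ℝ) / |a| := by
      rw [← Real.rpow_natCast, ← Real.rpow_mul hz0.le]
      norm_num
    have h5 : (√v) ^ 6 = v ^ 3 := by
      have : (√v) ^ 6 = ((√v) ^ 2) ^ 3 := by ring
      rw [this, Real.sq_sqrt hv0]
    rw [mul_pow, mul_pow, mul_pow, h4, h5] at h3
    have h6 := card_le hA
    rw [← hv] at h6
    rcases hv0.lt_or_eq with hpos | hz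
    · have h7 : v ^ 2 * (v ^ 4 * κ ^ 6) ≤ v ^ 2 * (C0 ^ 6 / |a|) := by
        calc v ^ 2 * (v ^ 4 * κ ^ 6) = v ^ 6 * κ ^ 6 := by ring
          _ ≤ C0 ^ 6 * v ^ 3 * (q / |a|) := h3
          _ = v ^ 2 * (C0 ^ 6 / |a|) * (q * v) := by ring
          _ ≤ v ^ 2 * (C0 ^ 6 / |a|) * 1 := mul_le_mul_of_nonneg_left h6 (by positivity)
          _ = _ := by ring
      exact le_of_mul_le_mul_left h7 (by positivity)
    · rw [← hz]
      have : (0:ℝ) ^ 4 * κ ^ 6 = 0 := by norm_num
      rw [this]
      positivity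
  refine ⟨?_, ?_, ?_⟩
  · intro q hq A hA hinv R hR
    refine (key q hq A hA hinv R hR).trans ?_
    have hz0 : 0 ≤ ((q : ℝ) / |a|) ^ (1 / 6 : ℝ) := Real.rpow_nonneg (by positivity) _
    apply mul_le_mul_of_nonneg_right _ hz0
    exact mul_le_mul_of_nonneg_right hCle (Real.sqrt_nonneg _)
  · intro q hq A hA R hR hAR
    refine (isl q hq A hA R hR hAR).trans ?_
    apply div_le_div_of_nonneg_right _ ha0.le
    exact pow_le_pow_left₀ hC00 hCle 6
  · intro q hq A hA R hR hAR hR2
    have h1 := isl q hq A hA R hR hAR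
    have hv0 : 0 ≤ volume.real A := measureReal_nonneg
    have h2 : (1 / 2 : ℝ) ^ 6 ≤ (1 - volume.real R) ^ 6 :=
      pow_le_pow_left₀ (by norm_num) (by linarith) 6
    have h3 : volume.real A ^ 4 * (1 / 2 : ℝ) ^ 6 ≤ C0 ^ 6 / |a| :=
      (mul_le_mul_of_nonneg_left h2 (by positivity)).trans h1
    have h4 : volume.real A ^ 4 ≤ (3 * (1 + C0) ^ 2) ^ 4 / |a| := by
      have h5 : volume.real A ^ 4 ≤ 64 * (C0 ^ 6 / |a|) := by
        have e : volume.real A ^ 4 = 64 * (volume.real A ^ 4 * (1 / 2 : ℝ) ^ 6) := by ring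
        rw [e]
        linarith
      refine h5.trans ?_
      rw [← mul_div_assoc]
      apply div_le_div_of_nonneg_right _ ha0.le
      have h6 : C0 ^ 6 ≤ (1 + C0) ^ 6 := pow_le_pow_left₀ hC00 (by linarith) 6
      have h7 : (1 + C0) ^ 6 ≤ (1 + C0) ^ 8 := pow_le_pow_right₀ (by linarith) (by norm_num)
      have e : (3 * (1 + C0) ^ 2) ^ 4 = 81 * (1 + C0) ^ 8 := by ring
      rw [e]
      have h8 : 0 ≤ (1 + C0) ^ 8 := by positivity
      linarith
    have h9 : (|a| ^ (-(1 / 4) : ℝ)) ^ 4 = 1 / |a| := by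
      rw [← Real.rpow_natCast, ← Real.rpow_mul ha0.le]
      norm_num
      exact Real.rpow_neg_one _
    have hp : 0 ≤ |a| ^ (-(1 / 4) : ℝ) := Real.rpow_nonneg ha0.le _
    apply le_of_pow_le_pow_left₀ (n := 4) (by norm_num) (by positivity)
    rw [mul_pow, h9, mul_one_div]
    exact h4

end Pool.Agent.Results.MP_9ee088_an.PeriodicIslands
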